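import Pool.Agent.Work.MP_db9399_bp_helper22.Equitable

/-!
# Equitable edge colourings with loads (helper39)

As `equitable` of helper22: the signed numbers of the nodes agree up to `2`, and at the same time the
numbers of covered vertices with sign `1` (with sign `-1`) agree up to `4`, for all nodes.
-/

set_option autoImplicit false

namespace Pool.Agent.Work.MP_db9399_sg_helper39

open Finset
open Pool.Agent.Work.MP_db9399_bp_helper22

/-- `l` lies between `0` and `L` -/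
def btw (l L : ℤ) : Prop := (0 ≤ l ∧ l ≤ L) ∨ (L ≤ l ∧ l ≤ 0)

/-- valid pair of sums -/
def V3 (la lb La Lb : ℤ) : Prop := btw la La ∧ btw lb Lb ∧ btw (la - lb) (La - Lb)

theorem V3.swap {la lb La Lb : ℤ} (h : V3 la lb La Lb) : V3 lb la Lb La := by
  unfold V3 btw at *; omega

theorem V3.neg {la lb La Lb : ℤ} (h : V3 la lb La Lb) : V3 (-la) (-lb) (-La) (-Lb) := by
  unfold V3 btw at *; omega

theorem V3.comp {la lb La Lb ma mb : ℤ} (h : V3 la lb La Lb) (h' : V3 ma mb (La - la) (Lb - lb)) :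
    V3 ma mb La Lb ∧ V3 (la + ma) (lb + mb) La Lb := by
  unfold V3 btw at *; omega

theorem V3.comp2 {la lb La Lb ma mb na nb : ℤ} (h' : V3 ma mb (La - la) (Lb - lb))
    (h'' : V3 na nb (La - (la + ma)) (Lb - (lb + mb))) :
    V3 na nb (La - la) (Lb - lb) ∧ V3 (ma + na) (mb + nb) (La - la) (Lb - lb) := by
  have e1 : La - (la + ma) = La - la - ma := by ring
  have e2 : Lb - (lb + mb) = Lb - lb - mb := by ring
  rw [e1, e2] at h''
  exact h'.comp h''

/-- type of an end -/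
def Ty (a b : ℤ) : Prop :=
  (a = 0 ∧ b = 0) ∨ (a = 1 ∧ b = 0) ∨ (a = -1 ∧ b = 0) ∨ (a = 0 ∧ b = 1) ∨ (a = 0 ∧ b = -1)

variable {V N : Type*}

/-- sum over the vertices of `T` in the node `x` -/
def sm [DecidableEq N] (nd : V → N) (a : V → ℤ) (T : Finset V) (x : N) : ℤ :=
  ∑ v ∈ T.filter (fun v => nd v = x), a v

theorem sm_insert [DecidableEq V] [DecidableEq N] (nd : V → N) (a : V → ℤ) (T : Finset V) (x : N)
    (v : V) (hv : v ∉ T) :
    sm nd a (insert v T) x = (if x = nd v then a v else 0) + sm nd a T x := by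
  unfold sm
  rw [sum_filter, sum_insert hv, ← sum_filter]
  simp only [@eq_comm _ (nd v)]

theorem sm_sdiff [DecidableEq V] [DecidableEq N] (nd : V → N) (a : V → ℤ) (O T : Finset V)
    (hT : T ⊆ O) (x : N) : sm nd a (O \ T) x = sm nd a O x - sm nd a T x := by
  unfold sm
  rw [sum_filter, sum_filter, sum_filter, ← sum_sdiff hT]
  ring

theorem sm_union [DecidableEq V] [DecidableEq N] (nd : V → N) (a : V → ℤ) (S T : Finset V)
    (hT : Disjoint S T) (x : N) : sm nd a (S ∪ T) x = sm nd a S x + sm nd a T x := by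
  unfold sm
  rw [sum_filter, sum_filter, sum_filter, sum_union hT]

theorem sm_neg [DecidableEq N] (nd : V → N) (a : V → ℤ) (T : Finset V) (x : N) :
    sm nd (fun v => -a v) T x = -sm nd a T x := by
  unfold sm
  rw [sum_neg_distrib]

theorem sm_nonneg [DecidableEq N] (nd : V → N) (a : V → ℤ) (ha : ∀ v, a v = 0 ∨ a v = 1 ∨ a v = -1)
    (T : Finset V) (x : N) (h : ∀ v ∈ T, nd v = x → a v ≠ -1) : 0 ≤ sm nd a T x := by
  apply sum_nonneg
  intro v hv
  rw [mem_filter] at hv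
  have h1 := h v hv.1 hv.2
  have h2 := ha v
  omega

theorem sm_nonpos [DecidableEq N] (nd : V → N) (a : V → ℤ) (ha : ∀ v, a v = 0 ∨ a v = 1 ∨ a v = -1)
    (T : Finset V) (x : N) (h : ∀ v ∈ T, nd v = x → a v ≠ 1) : sm nd a T x ≤ 0 := by
  apply sum_nonpos
  intro v hv
  rw [mem_filter] at hv
  have h1 := h v hv.1 hv.2
  have h2 := ha v
  omega

/-- local extension argument -/
theorem V3_ext (A B La Lb aw bw : ℤ) (hw : Ty aw bw) (h : V3 (A - aw) (B - bw) La Lb)
    (F1 : V3 (A - 1) B La Lb → 0 ≤ La - A) (F2 : V3 (A + 1) B La Lb → La - A ≤ 0)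
    (F3 : V3 A (B - 1) La Lb → 0 ≤ Lb - B) (F4 : V3 A (B + 1) La Lb → Lb - B ≤ 0) :
    V3 A B La Lb := by
  rcases hw with ⟨rfl, rfl⟩ | ⟨rfl, rfl⟩ | ⟨rfl, rfl⟩ | ⟨rfl, rfl⟩ | ⟨rfl, rfl⟩
  · simpa using h
  · rw [sub_zero] at h
    have h1 := F1 h
    by_cases h2 : V3 A (B + 1) La Lb
    · have h3 := F4 h2
      unfold V3 btw at *; omega
    · unfold V3 btw at *; omega
  · rw [sub_zero, sub_neg_eq_add] at h
    have h1 := F2 h
    by_cases h2 : V3 A (B - 1) La Lb
    · have h3 := F3 h2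
      unfold V3 btw at *; omega
    · unfold V3 btw at *; omega
  · rw [sub_zero] at h
    have h1 := F3 h
    by_cases h2 : V3 (A + 1) B La Lb
    · have h3 := F2 h2
      unfold V3 btw at *; omega
    · unfold V3 btw at *; omega
  · rw [sub_zero, sub_neg_eq_add] at h
    have h1 := F4 h
    by_cases h2 : V3 (A - 1) B La Lb
    · have h3 := F1 h2
      unfold V3 btw at *; omega
    · unfold V3 btw at *; omega

/-- a segment which starts at the end `e0` of the node `x0` -/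
theorem seg [Fintype V] [DecidableEq V] [DecidableEq N] (O : Finset V) (κ : V → V)
    (hO : ∀ v ∈ O, κ v ∈ O) (hκ : ∀ v ∈ O, κ (κ v) = v) (hne : ∀ v ∈ O, κ v ≠ v) (nd : V → N)
    (a b : V → ℤ) (hab : ∀ v, Ty (a v) (b v)) (x0 : N) (e0 : V) (he0 : e0 ∈ O) (hx0 : nd e0 = x0) :
    ∃ T ⊆ O, (∀ v ∈ T, κ v ∈ T) ∧
      (∀ x, x ≠ x0 → V3 (sm nd a T x) (sm nd b T x) (sm nd a O x) (sm nd b O x)) ∧
      ∃ p q : ℤ, Ty p q ∧ sm nd a T x0 = a e0 + p ∧ sm nd b T x0 = b e0 + q ∧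
        0 ≤ p * (sm nd a O x0 - sm nd a T x0) ∧ 0 ≤ q * (sm nd b O x0 - sm nd b T x0) := by
  classical
  have ha : ∀ v, a v = 0 ∨ a v = 1 ∨ a v = -1 := by
    intro v
    have := hab v
    unfold Ty at this
    omega
  have hb : ∀ v, b v = 0 ∨ b v = 1 ∨ b v = -1 := by
    intro v
    have := hab v
    unfold Ty at this
    omega
  -- the family of trails
  set 𝒯 : Finset (Finset V × V) := univ.filter fun p => p.1 ⊆ O ∧ (∀ v ∈ p.1, κ v ∈ p.1) ∧
    p.2 ∈ p.1 ∧ (∀ x, x ≠ x0 → V3 (sm nd a p.1 x - (if x = nd p.2 then a p.2 else 0))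
      (sm nd b p.1 x - (if x = nd p.2 then b p.2 else 0)) (sm nd a O x) (sm nd b O x)) ∧
    sm nd a p.1 x0 = a e0 + (if x0 = nd p.2 then a p.2 else 0) ∧
    sm nd b p.1 x0 = b e0 + (if x0 = nd p.2 then b p.2 else 0) with h𝒯
  have h00 : ∀ La Lb : ℤ, V3 0 0 La Lb := by
    intro La Lb
    unfold V3 btw
    omega
  have hsmp : ∀ (f : V → ℤ) (x : N), sm nd f {e0, κ e0} x =
      (if x = nd e0 then f e0 else 0) + (if x = nd (κ e0) then f (κ e0) else 0) := by
    intro f x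
    rw [sm_insert nd f {κ e0} x e0 (by rw [mem_singleton]; exact (hne e0 he0).symm)]
    congr 1
    unfold sm
    rw [sum_filter, sum_singleton]
    simp only [@eq_comm _ (nd (κ e0))]
  -- it is not empty
  have hne1 : 𝒯.Nonempty := by
    refine ⟨({e0, κ e0}, κ e0), ?_⟩
    rw [h𝒯, mem_filter]
    refine ⟨mem_univ _, ?_, ?_, ?_, ?_, ?_, ?_⟩
    · intro u hu
      rw [mem_insert, mem_singleton] at hu
      rcases hu with rfl | rfl
      · exact he0
      · exact hO e0 he0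
    · intro u hu
      rw [mem_insert, mem_singleton] at hu ⊢
      rcases hu with rfl | rfl
      · exact Or.inr rfl
      · exact Or.inl (hκ e0 he0)
    · simp
    · intro x hx
      simp only
      have hx1 : ¬ x = nd e0 := by rw [hx0]; exact hx
      rw [hsmp, hsmp]
      simp only [if_neg hx1]
      rw [zero_add, zero_add, sub_self, sub_self]
      exact h00 _ _
    · simp only
      rw [hsmp, if_pos hx0.symm]
    · simp only
      rw [hsmp, if_pos hx0.symm]
  obtain ⟨⟨T, w⟩, hTw, hmax⟩ := exists_max_image 𝒯 (fun p => p.1.card) hne1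
  rw [h𝒯, mem_filter] at hTw
  obtain ⟨-, hTO, hTκ, hwT, hTs, hTa, hTb⟩ := hTw
  simp only at hTO hTκ hwT hTs hTa hTb
  -- maximality
  have hstop : ∀ v ∈ O, v ∉ T → nd v = nd w →
      (nd w ≠ x0 → V3 (sm nd a T (nd w) + a v) (sm nd b T (nd w) + b v) (sm nd a O (nd w))
        (sm nd b O (nd w))) → (nd w = x0 → a w + a v = 0 ∧ b w + b v = 0) → False := by
    intro v hv hvT hvw h1 h2
    have hκT : κ v ∉ T := by
      intro h
      apply hvT
      have := hTκ _ h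
      rwa [hκ v hv] at this
    have h3 : v ∉ insert (κ v) T := by
      rw [mem_insert]
      rintro (h | h)
      · exact hne v hv h.symm
      · exact hvT h
    have hsum : ∀ (f : V → ℤ) (x : N), sm nd f (insert v (insert (κ v) T)) x =
        (if x = nd v then f v else 0) + ((if x = nd (κ v) then f (κ v) else 0) + sm nd f T x) := by
      intro f x
      rw [sm_insert nd f _ x v h3, sm_insert nd f _ x (κ v) hκT]
    have h4 : (insert v (insert (κ v) T), κ v) ∈ 𝒯 := by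
      rw [h𝒯, mem_filter]
      refine ⟨mem_univ _, ?_, ?_, ?_, ?_, ?_, ?_⟩
      · intro u hu
        rw [mem_insert, mem_insert] at hu
        rcases hu with rfl | rfl | hu
        · exact hv
        · exact hO v hv
        · exact hTO hu
      · intro u hu
        rw [mem_insert, mem_insert] at hu ⊢
        rcases hu with rfl | rfl | hu
        · exact Or.inr (Or.inl rfl)
        · exact Or.inl (hκ v hv)
        · exact Or.inr (Or.inr (hTκ u hu))
      · simp
      · intro x hx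
        simp only
        rw [hsum, hsum]
        by_cases hxw : x = nd w
        · rw [if_pos (hxw.trans hvw.symm), if_pos (hxw.trans hvw.symm)]
          have h5 := h1 (by rw [← hxw]; exact hx)
          rw [← hxw] at h5
          have e1 : ∀ c : ℤ, a v + (c + sm nd a T x) - c = sm nd a T x + a v := by intro c; ring
          have e2 : ∀ c : ℤ, b v + (c + sm nd b T x) - c = sm nd b T x + b v := by intro c; ring
          rw [e1, e2]
          exact h5
        · have hx1 : ¬ x = nd v := by rw [hvw]; exact hxw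
          simp only [if_neg hx1]
          have h5 := hTs x hx
          rw [if_neg hxw, if_neg hxw, sub_zero, sub_zero] at h5
          have e1 : ∀ c : ℤ, 0 + (c + sm nd a T x) - c = sm nd a T x := by intro c; ring
          have e2 : ∀ c : ℤ, 0 + (c + sm nd b T x) - c = sm nd b T x := by intro c; ring
          rw [e1, e2]
          exact h5
      · simp only
        rw [hsum, hTa, hvw]
        by_cases hxw : x0 = nd w
        · rw [if_pos hxw, if_pos hxw]
          have := (h2 hxw.symm).1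
          linarith
        · rw [if_neg hxw, if_neg hxw]
          ring
      · simp only
        rw [hsum, hTb, hvw]
        by_cases hxw : x0 = nd w
        · rw [if_pos hxw, if_pos hxw]
          have := (h2 hxw.symm).2
          linarith
        · rw [if_neg hxw, if_neg hxw]
          ring
    have h5 := hmax _ h4
    simp only at h5
    rw [card_insert_of_notMem h3, card_insert_of_notMem hκT] at h5
    omega
  have hTd : ∀ (f : V → ℤ) (x : N), sm nd f O x - sm nd f T x = sm nd f (O \ T) x :=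
    fun f x => (sm_sdiff nd f O T hTO x).symm
  refine ⟨T, hTO, hTκ, ?_, ?_⟩
  · intro x hx
    have h1 := hTs x hx
    by_cases hxw : x = nd w
    · rw [if_pos hxw, if_pos hxw] at h1
      have hxw0 : nd w ≠ x0 := by rw [← hxw]; exact hx
      subst hxw
      apply V3_ext _ _ _ _ (a w) (b w) (hab w) h1
      · intro h2
        rw [hTd]
        apply sm_nonneg nd a ha
        intro v hv hvw hav
        rw [mem_sdiff] at hv
        refine hstop v hv.1 hv.2 hvw (fun _ => ?_) (fun h => absurd h hxw0)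
        have h3 : b v = 0 := by have := hab v; unfold Ty at this; omega
        rw [hav, h3, add_zero]
        exact h2
      · intro h2
        rw [hTd]
        apply sm_nonpos nd a ha
        intro v hv hvw hav
        rw [mem_sdiff] at hv
        refine hstop v hv.1 hv.2 hvw (fun _ => ?_) (fun h => absurd h hxw0)
        have h3 : b v = 0 := by have := hab v; unfold Ty at this; omega
        rw [hav, h3, add_zero]
        exact h2
      · intro h2
        rw [hTd]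
        apply sm_nonneg nd b hb
        intro v hv hvw hbv
        rw [mem_sdiff] at hv
        refine hstop v hv.1 hv.2 hvw (fun _ => ?_) (fun h => absurd h hxw0)
        have h3 : a v = 0 := by have := hab v; unfold Ty at this; omega
        rw [hbv, h3, add_zero]
        exact h2
      · intro h2
        rw [hTd]
        apply sm_nonpos nd b hb
        intro v hv hvw hbv
        rw [mem_sdiff] at hv
        refine hstop v hv.1 hv.2 hvw (fun _ => ?_) (fun h => absurd h hxw0)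
        have h3 : a v = 0 := by have := hab v; unfold Ty at this; omega
        rw [hbv, h3, add_zero]
        exact h2
    · rw [if_neg hxw, if_neg hxw, sub_zero, sub_zero] at h1
      exact h1
  · by_cases hxw : x0 = nd w
    · rw [if_pos hxw] at hTa hTb
      refine ⟨a w, b w, hab w, hTa, hTb, ?_, ?_⟩
      · rw [hTd]
        rcases ha w with h | h | h
        · rw [h, zero_mul]
        · rw [h, one_mul]
          apply sm_nonneg nd a ha
          intro v hv hvw hav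
          rw [mem_sdiff] at hv
          refine hstop v hv.1 hv.2 (hvw.trans hxw) (fun h' => absurd hxw.symm h') (fun _ => ?_)
          have h3 := hab v
          have h4 := hab w
          unfold Ty at h3 h4
          omega
        · rw [h]
          have h5 : sm nd a (O \ T) x0 ≤ 0 := by
            apply sm_nonpos nd a ha
            intro v hv hvw hav
            rw [mem_sdiff] at hv
            refine hstop v hv.1 hv.2 (hvw.trans hxw) (fun h' => absurd hxw.symm h') (fun _ => ?_)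
            have h3 := hab v
            have h4 := hab w
            unfold Ty at h3 h4
            omega
          linarith
      · rw [hTd]
        rcases hb w with h | h | h
        · rw [h, zero_mul]
        · rw [h, one_mul]
          apply sm_nonneg nd b hb
          intro v hv hvw hav
          rw [mem_sdiff] at hv
          refine hstop v hv.1 hv.2 (hvw.trans hxw) (fun h' => absurd hxw.symm h') (fun _ => ?_)
          have h3 := hab v
          have h4 := hab w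
          unfold Ty at h3 h4
          omega
        · rw [h]
          have h5 : sm nd b (O \ T) x0 ≤ 0 := by
            apply sm_nonpos nd b hb
            intro v hv hvw hav
            rw [mem_sdiff] at hv
            refine hstop v hv.1 hv.2 (hvw.trans hxw) (fun h' => absurd hxw.symm h') (fun _ => ?_)
            have h3 := hab v
            have h4 := hab w
            unfold Ty at h3 h4
            omega
          linarith
    · rw [if_neg hxw] at hTa hTb
      exact ⟨0, 0, Or.inl ⟨rfl, rfl⟩, hTa, hTb, by rw [zero_mul], by rw [zero_mul]⟩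

/-- the ends and their pairing -/
structure Env (O : Finset V) (κ : V → V) : Prop where
  hO : ∀ v ∈ O, κ v ∈ O
  hκ : ∀ v ∈ O, κ (κ v) = v
  hne : ∀ v ∈ O, κ v ≠ v

theorem Env.sdiff [DecidableEq V] {O : Finset V} {κ : V → V} (h : Env O κ) (T : Finset V)
    (hc : ∀ v ∈ T, κ v ∈ T) : Env (O \ T) κ := by
  refine ⟨?_, ?_, ?_⟩
  · intro v hv
    rw [mem_sdiff] at hv ⊢
    refine ⟨h.hO v hv.1, fun h1 => hv.2 ?_⟩
    have := hc _ h1
    rwa [h.hκ v hv.1] at this
  · intro v hv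
    exact h.hκ v (mem_sdiff.1 hv).1
  · intro v hv
    exact h.hne v (mem_sdiff.1 hv).1

/-- validity of `T` at the node `x` -/
def Val [DecidableEq N] (nd : V → N) (a b : V → ℤ) (O T : Finset V) (x : N) : Prop :=
  V3 (sm nd a T x) (sm nd b T x) (sm nd a O x) (sm nd b O x)

theorem Val.comp [DecidableEq V] [DecidableEq N] {nd : V → N} {a b : V → ℤ} {O R T : Finset V}
    {x : N} (hR : R ⊆ O) (hT : T ⊆ O \ R) (h1 : Val nd a b O R x) (h2 : Val nd a b (O \ R) T x) :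
    Val nd a b O T x ∧ Val nd a b O (R ∪ T) x := by
  have hd : Disjoint R T := by
    rw [disjoint_left]
    intro v hv hv'
    exact (mem_sdiff.1 (hT hv')).2 hv
  unfold Val at h1 h2 ⊢
  rw [sm_sdiff nd a O R hR, sm_sdiff nd b O R hR] at h2
  rw [sm_union nd a R T hd, sm_union nd b R T hd]
  exact h1.comp h2

theorem seg_a [Fintype V] [DecidableEq V] [DecidableEq N] {O : Finset V} {κ : V → V}
    (E : Env O κ) (nd : V → N) (a b : V → ℤ) (hab : ∀ v, Ty (a v) (b v)) (x0 : N)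
    (h0 : 0 < sm nd a O x0) :
    ∃ T ⊆ O, (∀ v ∈ T, κ v ∈ T) ∧ (∀ x, x ≠ x0 → Val nd a b O T x) ∧
      ∃ p q : ℤ, Ty p q ∧ sm nd a T x0 = 1 + p ∧ sm nd b T x0 = q ∧
        0 ≤ p * (sm nd a O x0 - (1 + p)) ∧ 0 ≤ q * (sm nd b O x0 - q) := by
  have ha : ∀ v, a v = 0 ∨ a v = 1 ∨ a v = -1 := by
    intro v
    have := hab v
    unfold Ty at this
    omega
  have h1 : ∃ e ∈ O, nd e = x0 ∧ a e = 1 := by
    by_contra hcon
    push Not at hcon
    have := sm_nonpos nd a ha O x0 hcon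
    omega
  obtain ⟨e0, he0, hx0, ha0⟩ := h1
  have hb0 : b e0 = 0 := by
    have := hab e0
    unfold Ty at this
    omega
  obtain ⟨T, hTO, hTκ, hTv, p, q, hpq, h2, h3, h4, h5⟩ :=
    seg O κ E.hO E.hκ E.hne nd a b hab x0 e0 he0 hx0
  rw [ha0] at h2
  rw [hb0, zero_add] at h3
  rw [h2] at h4
  rw [h3] at h5
  exact ⟨T, hTO, hTκ, hTv, p, q, hpq, h2, h3, h4, h5⟩

theorem Ty.swap {a b : ℤ} (h : Ty a b) : Ty b a := by
  unfold Ty at *; omega

theorem Ty.neg {a b : ℤ} (h : Ty a b) : Ty (-a) (-b) := by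
  unfold Ty at *; omega

/-- both sums are at least `3` -/
theorem core1 [Fintype V] [DecidableEq V] [DecidableEq N] {O : Finset V} {κ : V → V}
    (E : Env O κ) (nd : V → N) (a b : V → ℤ) (hab : ∀ v, Ty (a v) (b v)) (x0 : N)
    (hLa : 3 ≤ sm nd a O x0) (hLb : 3 ≤ sm nd b O x0) :
    ∃ T ⊆ O, (∀ v ∈ T, κ v ∈ T) ∧ (∀ x, x ≠ x0 → Val nd a b O T x) ∧
      ((sm nd a T x0 = 1 ∧ sm nd b T x0 = 1) ∨ (sm nd a T x0 = 2 ∧ sm nd b T x0 = 2)) := by
  have hba : ∀ v, Ty (b v) (a v) := fun v => (hab v).swap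
  obtain ⟨T1, h1O, h1c, h1v, p1, q1, hty1, h1a, h1b, h1p, h1q⟩ :=
    seg_a E nd a b hab x0 (by omega)
  have c1 : (p1 = 0 ∧ q1 = 0) ∨ (p1 = 1 ∧ q1 = 0) ∨ (p1 = 0 ∧ q1 = 1) := by
    rcases hty1 with ⟨rfl, rfl⟩ | ⟨rfl, rfl⟩ | ⟨rfl, rfl⟩ | ⟨rfl, rfl⟩ | ⟨rfl, rfl⟩ <;> omega
  by_cases hc1 : p1 = 0 ∧ q1 = 1
  · exact ⟨T1, h1O, h1c, h1v, Or.inl ⟨by omega, by omega⟩⟩
  have E1 := E.sdiff T1 h1c
  have s1a := sm_sdiff nd a O T1 h1O x0
  have s1b := sm_sdiff nd b O T1 h1O x0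
  obtain ⟨T2, h2O, h2c, h2v, p2, q2, hty2, h2b, h2a, h2p, h2q⟩ :=
    seg_a E1 nd b a hba x0 (by omega)
  have c2 : (p2 = 0 ∧ q2 = 0) ∨ (p2 = 1 ∧ q2 = 0) ∨ (p2 = 0 ∧ q2 = 1) := by
    rw [s1b] at h2p
    rw [s1a] at h2q
    rcases hty2 with ⟨rfl, rfl⟩ | ⟨rfl, rfl⟩ | ⟨rfl, rfl⟩ | ⟨rfl, rfl⟩ | ⟨rfl, rfl⟩ <;> omega
  have h2v' : ∀ x, x ≠ x0 → Val nd a b (O \ T1) T2 x := fun x hx => (h2v x hx).swap
  have h2O' : T2 ⊆ O := h2O.trans sdiff_subset
  have h12d : Disjoint T1 T2 := by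
    rw [disjoint_left]
    intro v hv hv'
    exact (mem_sdiff.1 (h2O hv')).2 hv
  have hv12 : ∀ x, x ≠ x0 → Val nd a b O T2 x ∧ Val nd a b O (T1 ∪ T2) x := fun x hx =>
    (h1v x hx).comp h1O h2O (h2v' x hx)
  have hcl : ∀ S T : Finset V, (∀ v ∈ S, κ v ∈ S) → (∀ v ∈ T, κ v ∈ T) →
      ∀ v ∈ S ∪ T, κ v ∈ S ∪ T := by
    intro S T hS hT v hv
    rw [mem_union] at hv ⊢
    exact hv.imp (hS v) (hT v)
  by_cases hc2 : p2 = 0 ∧ q2 = 1
  · exact ⟨T2, h2O', h2c, fun x hx => (hv12 x hx).1, Or.inl ⟨by omega, by omega⟩⟩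
  by_cases hc3 : p1 = p2
  · refine ⟨T1 ∪ T2, union_subset h1O h2O', hcl _ _ h1c h2c, fun x hx => (hv12 x hx).2, ?_⟩
    rw [sm_union nd a T1 T2 h12d, sm_union nd b T1 T2 h12d]
    omega
  have E2 := E1.sdiff T2 h2c
  have s2a := sm_sdiff nd a (O \ T1) T2 h2O x0
  have s2b := sm_sdiff nd b (O \ T1) T2 h2O x0
  -- the third segment
  have fin : ∀ T3 : Finset V, T3 ⊆ (O \ T1) \ T2 → (∀ v ∈ T3, κ v ∈ T3) →
      (∀ x, x ≠ x0 → Val nd a b ((O \ T1) \ T2) T3 x) →
      ((sm nd a T3 x0 = 1 ∧ sm nd b T3 x0 = 1) ∨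
      (sm nd a T1 x0 + sm nd a T3 x0 = 2 ∧ sm nd b T1 x0 + sm nd b T3 x0 = 2) ∨
      (sm nd a T2 x0 + sm nd a T3 x0 = 2 ∧ sm nd b T2 x0 + sm nd b T3 x0 = 2) ∨
      (sm nd a T1 x0 + sm nd a T2 x0 + sm nd a T3 x0 = 2 ∧
        sm nd b T1 x0 + sm nd b T2 x0 + sm nd b T3 x0 = 2)) →
      ∃ T ⊆ O, (∀ v ∈ T, κ v ∈ T) ∧ (∀ x, x ≠ x0 → Val nd a b O T x) ∧
      ((sm nd a T x0 = 1 ∧ sm nd b T x0 = 1) ∨ (sm nd a T x0 = 2 ∧ sm nd b T x0 = 2)) := by
    intro T3 h3O h3c h3v h3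
    have h3O1 : T3 ⊆ O \ T1 := h3O.trans sdiff_subset
    have h3O2 : T3 ⊆ O := h3O1.trans sdiff_subset
    have h13d : Disjoint T1 T3 := by
      rw [disjoint_left]
      intro v hv hv'
      exact (mem_sdiff.1 (h3O1 hv')).2 hv
    have h23d : Disjoint T2 T3 := by
      rw [disjoint_left]
      intro v hv hv'
      exact (mem_sdiff.1 (h3O hv')).2 hv
    have hA : ∀ x, x ≠ x0 → Val nd a b (O \ T1) T3 x ∧ Val nd a b (O \ T1) (T2 ∪ T3) x := fun x hx =>
      (h2v' x hx).comp h2O h3O (h3v x hx)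
    have hB : ∀ x, x ≠ x0 → Val nd a b O T3 x ∧ Val nd a b O (T1 ∪ T3) x := fun x hx =>
      (h1v x hx).comp h1O h3O1 (hA x hx).1
    have hC : ∀ x, x ≠ x0 → Val nd a b O (T2 ∪ T3) x ∧ Val nd a b O (T1 ∪ (T2 ∪ T3)) x :=
      fun x hx => (h1v x hx).comp h1O (union_subset h2O h3O1) (hA x hx).2
    rcases h3 with h3 | h3 | h3 | h3
    · exact ⟨T3, h3O2, h3c, fun x hx => (hB x hx).1, Or.inl h3⟩
    · refine ⟨T1 ∪ T3, union_subset h1O h3O2, hcl _ _ h1c h3c, fun x hx => (hB x hx).2, Or.inr ?_⟩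
      rw [sm_union nd a T1 T3 h13d, sm_union nd b T1 T3 h13d]
      exact h3
    · refine ⟨T2 ∪ T3, union_subset h2O' h3O2, hcl _ _ h2c h3c, fun x hx => (hC x hx).1, Or.inr ?_⟩
      rw [sm_union nd a T2 T3 h23d, sm_union nd b T2 T3 h23d]
      exact h3
    · refine ⟨T1 ∪ (T2 ∪ T3), union_subset h1O (union_subset h2O' h3O2),
        hcl _ _ h1c (hcl _ _ h2c h3c), fun x hx => (hC x hx).2, Or.inr ?_⟩
      have hd : Disjoint T1 (T2 ∪ T3) := by
        rw [disjoint_union_right]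
        exact ⟨h12d, h13d⟩
      rw [sm_union nd a T1 _ hd, sm_union nd b T1 _ hd, sm_union nd a T2 T3 h23d,
        sm_union nd b T2 T3 h23d]
      constructor
      · rw [← h3.1]; ring
      · rw [← h3.2]; ring
  by_cases hc4 : p1 = 1
  · -- the sums so far are (2, 1)
    obtain ⟨T3, h3O, h3c, h3v, p3, q3, hty3, h3b, h3a, h3p, h3q⟩ :=
      seg_a E2 nd b a hba x0 (by omega)
    have c3 : (p3 = 0 ∧ q3 = 0) ∨ (p3 = 1 ∧ q3 = 0) ∨ (p3 = 0 ∧ q3 = 1) := by
      rw [s2b, s1b] at h3p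
      rw [s2a, s1a] at h3q
      rcases hty3 with ⟨rfl, rfl⟩ | ⟨rfl, rfl⟩ | ⟨rfl, rfl⟩ | ⟨rfl, rfl⟩ | ⟨rfl, rfl⟩ <;> omega
    exact fin T3 h3O h3c (fun x hx => (h3v x hx).swap) (by omega)
  · -- the sums so far are (1, 2)
    obtain ⟨T3, h3O, h3c, h3v, p3, q3, hty3, h3a, h3b, h3p, h3q⟩ :=
      seg_a E2 nd a b hab x0 (by omega)
    have c3 : (p3 = 0 ∧ q3 = 0) ∨ (p3 = 1 ∧ q3 = 0) ∨ (p3 = 0 ∧ q3 = 1) := by
      rw [s2a, s1a] at h3p
      rw [s2b, s1b] at h3q
      rcases hty3 with ⟨rfl, rfl⟩ | ⟨rfl, rfl⟩ | ⟨rfl, rfl⟩ | ⟨rfl, rfl⟩ | ⟨rfl, rfl⟩ <;> omega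
    exact fin T3 h3O h3c h3v (by omega)

/-- strict progress -/
def Str (la lb La Lb : ℤ) : Prop :=
  (la ≠ 0 ∧ la ≠ La) ∨ (lb ≠ 0 ∧ lb ≠ Lb) ∨ (la - lb ≠ 0 ∧ la - lb ≠ La - Lb)

/-- a set which improves the sums -/
def Good [DecidableEq N] (nd : V → N) (a b : V → ℤ) (O : Finset V) (κ : V → V) (x0 : N)
    (T : Finset V) : Prop :=
  T ⊆ O ∧ (∀ v ∈ T, κ v ∈ T) ∧ (∀ x, Val nd a b O T x) ∧
    Str (sm nd a T x0) (sm nd b T x0) (sm nd a O x0) (sm nd b O x0)

theorem Good.swap [DecidableEq N] {nd : V → N} {a b : V → ℤ} {O : Finset V} {κ : V → V} {x0 : N}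
    {T : Finset V} (h : Good nd a b O κ x0 T) : Good nd b a O κ x0 T := by
  refine ⟨h.1, h.2.1, fun x => (h.2.2.1 x).swap, ?_⟩
  have := h.2.2.2
  unfold Str at *
  omega

theorem Good.neg [DecidableEq N] {nd : V → N} {a b : V → ℤ} {O : Finset V} {κ : V → V} {x0 : N}
    {T : Finset V} (h : Good nd (fun v => -a v) (fun v => -b v) O κ x0 T) :
    Good nd a b O κ x0 T := by
  refine ⟨h.1, h.2.1, fun x => ?_, ?_⟩
  · have h1 := (h.2.2.1 x).neg
    rw [sm_neg, sm_neg, sm_neg, sm_neg, neg_neg, neg_neg, neg_neg, neg_neg] at h1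
    exact h1
  · have h1 := h.2.2.2
    rw [sm_neg, sm_neg, sm_neg, sm_neg] at h1
    unfold Str at *
    omega

theorem core1' [Fintype V] [DecidableEq V] [DecidableEq N] {O : Finset V} {κ : V → V}
    (E : Env O κ) (nd : V → N) (a b : V → ℤ) (hab : ∀ v, Ty (a v) (b v)) (x0 : N)
    (hLa : 3 ≤ sm nd a O x0) (hLb : 3 ≤ sm nd b O x0) : ∃ T, Good nd a b O κ x0 T := by
  obtain ⟨T, hTO, hTκ, hTv, h⟩ := core1 E nd a b hab x0 hLa hLb
  refine ⟨T, hTO, hTκ, ?_, ?_⟩
  · intro x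
    by_cases hx : x = x0
    · subst hx
      unfold Val V3 btw
      omega
    · exact hTv x hx
  · unfold Str
    omega

theorem core2 [Fintype V] [DecidableEq V] [DecidableEq N] {O : Finset V} {κ : V → V}
    (E : Env O κ) (nd : V → N) (a b : V → ℤ) (hab : ∀ v, Ty (a v) (b v)) (x0 : N)
    (h0 : 0 < sm nd a O x0) (h1 : -sm nd a O x0 ≤ sm nd b O x0) (h2 : sm nd b O x0 ≤ sm nd a O x0)
    (h3 : 3 ≤ sm nd a O x0 - sm nd b O x0) : ∃ T, Good nd a b O κ x0 T := by
  obtain ⟨T, hTO, hTκ, hTv, p, q, hty, hTa, hTb, hp, hq⟩ := seg_a E nd a b hab x0 h0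
  have c : (p = 0 ∧ q = 0) ∨ (p = 1 ∧ q = 0 ∧ 2 ≤ sm nd a O x0) ∨ (p = 0 ∧ q = 1 ∧
      1 ≤ sm nd b O x0) ∨ (p = 0 ∧ q = -1 ∧ sm nd b O x0 ≤ -1) := by
    rcases hty with ⟨rfl, rfl⟩ | ⟨rfl, rfl⟩ | ⟨rfl, rfl⟩ | ⟨rfl, rfl⟩ | ⟨rfl, rfl⟩ <;> omega
  refine ⟨T, hTO, hTκ, ?_, ?_⟩
  · intro x
    by_cases hx : x = x0
    · subst hx
      unfold Val V3 btw
      omega
    · exact hTv x hx
  · unfold Str
    omega

/-- an improvement exists if the sums at `x0` are too large -/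
theorem improve [Fintype V] [DecidableEq V] [DecidableEq N] {O : Finset V} {κ : V → V}
    (E : Env O κ) (nd : V → N) (a b : V → ℤ) (hab : ∀ v, Ty (a v) (b v)) (x0 : N)
    (h : ¬ (|sm nd a O x0 - sm nd b O x0| ≤ 2 ∧ |sm nd a O x0| ≤ 4 ∧ |sm nd b O x0| ≤ 4)) :
    ∃ T, Good nd a b O κ x0 T := by
  have hba : ∀ v, Ty (b v) (a v) := fun v => (hab v).swap
  have hab' : ∀ v, Ty (-a v) (-b v) := fun v => (hab v).neg
  have hba' : ∀ v, Ty (-b v) (-a v) := fun v => (hba v).neg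
  rw [abs_le, abs_le, abs_le] at h
  have na := sm_neg nd a O x0
  have nb := sm_neg nd b O x0
  by_cases c1 : 3 ≤ sm nd a O x0 ∧ 3 ≤ sm nd b O x0
  · exact core1' E nd a b hab x0 c1.1 c1.2
  by_cases c2 : sm nd a O x0 ≤ -3 ∧ sm nd b O x0 ≤ -3
  · obtain ⟨T, hT⟩ := core1' E nd _ _ hab' x0 (by rw [na]; omega) (by rw [nb]; omega)
    exact ⟨T, hT.neg⟩
  by_cases c3 : 0 < sm nd a O x0 ∧ -sm nd a O x0 ≤ sm nd b O x0 ∧ sm nd b O x0 ≤ sm nd a O x0
  · exact core2 E nd a b hab x0 c3.1 c3.2.1 c3.2.2 (by omega)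
  by_cases c4 : 0 < sm nd b O x0 ∧ -sm nd b O x0 ≤ sm nd a O x0 ∧ sm nd a O x0 ≤ sm nd b O x0
  · obtain ⟨T, hT⟩ := core2 E nd b a hba x0 c4.1 c4.2.1 c4.2.2 (by omega)
    exact ⟨T, hT.swap⟩
  by_cases c5 : sm nd a O x0 < 0 ∧ sm nd b O x0 ≤ -sm nd a O x0 ∧ sm nd a O x0 ≤ sm nd b O x0
  · obtain ⟨T, hT⟩ := core2 E nd _ _ hab' x0 (by rw [na]; omega) (by rw [na, nb]; omega)
      (by rw [na, nb]; omega) (by rw [na, nb]; omega)
    exact ⟨T, hT.neg⟩
  · obtain ⟨T, hT⟩ := core2 E nd _ _ hba' x0 (by rw [nb]; omega) (by rw [na, nb]; omega)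
      (by rw [na, nb]; omega) (by rw [na, nb]; omega)
    exact ⟨T, hT.neg.swap⟩

variable {β γ : Type*}

/-- the difference of the contributions of the vertex `v` -/
def dif [DecidableEq V] (w : V → ℤ) (f g : V → V) (v : V) : ℤ :=
  (if f v = v then 0 else w v) - (if g v = v then 0 else w v)

/-- the swap of the colours `b₁` and `b₂` on `S` -/
def sw [DecidableEq V] [DecidableEq β] (F : β → V → V) (b₁ b₂ : β) (S : Finset V) : β → V → V :=
  fun b v => if v ∈ S then (if b = b₁ then F b₂ v else if b = b₂ then F b₁ v else F b v) else F b v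

/-- change of the sum of squares -/
theorem sq_sw [Fintype V] [Fintype β] [DecidableEq V] [DecidableEq β] [DecidableEq N]
    (nd : V → N) (w : V → ℤ) (F : β → V → V) (b₁ b₂ : β) (hb : b₁ ≠ b₂) (S : Finset V) (x : N)
    (l : ℤ) (hl : l = ∑ v ∈ univ.filter (fun v => nd v = x),
      if v ∈ S then dif w (F b₁) (F b₂) v else 0) :
    ∑ b, (qs nd w (sw F b₁ b₂ S b) x) ^ 2 = ∑ b, (qs nd w (F b) x) ^ 2 +
      2 * l * (l - (qs nd w (F b₁) x - qs nd w (F b₂) x)) := by
  have hq1 : qs nd w (sw F b₁ b₂ S b₁) x = qs nd w (F b₁) x - l := by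
    rw [hl, qs, qs, ← sum_sub_distrib]
    apply sum_congr rfl
    intro v _
    unfold sw dif
    by_cases hv : v ∈ S
    · rw [if_pos hv, if_pos hv, if_pos rfl]
      ring
    · rw [if_neg hv, if_neg hv]
      ring
  have hq2 : qs nd w (sw F b₁ b₂ S b₂) x = qs nd w (F b₂) x + l := by
    rw [hl, qs, qs, ← sum_add_distrib]
    apply sum_congr rfl
    intro v _
    unfold sw dif
    by_cases hv : v ∈ S
    · rw [if_pos hv, if_pos hv, if_neg hb.symm, if_pos rfl]
      ring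
    · rw [if_neg hv, if_neg hv]
      ring
  have hq3 : ∀ b, b ≠ b₁ → b ≠ b₂ → sw F b₁ b₂ S b = F b := by
    intro b h1 h2
    funext v
    unfold sw
    rw [if_neg h1, if_neg h2, ite_self]
  have hsq : ∀ (H : β → V → V), ∑ b, (qs nd w (H b) x) ^ 2 =
      (qs nd w (H b₁) x) ^ 2 + (qs nd w (H b₂) x) ^ 2 +
      ∑ b ∈ (univ.erase b₁).erase b₂, (qs nd w (H b) x) ^ 2 := by
    intro H
    rw [← add_sum_erase univ _ (mem_univ b₁), ← add_sum_erase (univ.erase b₁) _
      (mem_erase.mpr ⟨hb.symm, mem_univ b₂⟩)]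
    ring
  have hrest : ∑ b ∈ (univ.erase b₁).erase b₂, (qs nd w (sw F b₁ b₂ S b) x) ^ 2 =
      ∑ b ∈ (univ.erase b₁).erase b₂, (qs nd w (F b) x) ^ 2 := by
    apply sum_congr rfl
    intro b hb'
    rw [mem_erase, mem_erase] at hb'
    rw [hq3 b hb'.2.1 hb'.1]
  rw [hsq, hsq F, hrest, hq1, hq2]
  ring

/-- the positive part of the signs -/
def pp (s : V → ℤ) (v : V) : ℤ := if s v = 1 then 1 else 0

/-- the negative part of the signs -/
def pm (s : V → ℤ) (v : V) : ℤ := if s v = -1 then 1 else 0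

theorem qs_split [Fintype V] [DecidableEq V] [DecidableEq N] (nd : V → N) (s : V → ℤ)
    (hs : ∀ v, s v = 0 ∨ s v = 1 ∨ s v = -1) (f : V → V) (x : N) :
    qs nd s f x = qs nd (pp s) f x - qs nd (pm s) f x := by
  unfold qs
  rw [← sum_sub_distrib]
  apply sum_congr rfl
  intro v _
  by_cases hv : f v = v
  · rw [if_pos hv, if_pos hv, if_pos hv, sub_zero]
  · rw [if_neg hv, if_neg hv, if_neg hv]
    unfold pp pm
    rcases hs v with h | h | h <;> rw [h] <;> norm_num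

/-- EQUITABLE LEMMA with loads -/
theorem equitableL [Fintype V] [Fintype β] [Fintype N] [DecidableEq V] [DecidableEq β]
    [DecidableEq N] (gp : β → γ) (F : β → V → V) (hinv : ∀ b v, F b (F b v) = v)
    (hdis : ∀ b b' v, b ≠ b' → F b v = F b' v → F b v = v) (nd : V → N) (s : V → ℤ)
    (hs : ∀ v, s v = 0 ∨ s v = 1 ∨ s v = -1) :
    ∃ F' : β → V → V, Recol gp F F' ∧ ∀ b b', gp b = gp b' → ∀ x,
      |qs nd s (F' b) x - qs nd s (F' b') x| ≤ 2 ∧
      |qs nd (pp s) (F' b) x - qs nd (pp s) (F' b') x| ≤ 4 ∧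
      |qs nd (pm s) (F' b) x - qs nd (pm s) (F' b') x| ≤ 4 := by
  classical
  have hne : (univ.filter fun F' : β → V → V => Recol gp F F').Nonempty :=
    ⟨F, mem_filter.mpr ⟨mem_univ _, hinv, hdis, fun _ _ _ _ => Iff.rfl⟩⟩
  obtain ⟨F', hF', hmin⟩ := exists_min_image _
    (fun F' : β → V → V => ∑ x, (∑ b, (qs nd s (F' b) x) ^ 2 + ∑ b, (qs nd (pp s) (F' b) x) ^ 2 +
      ∑ b, (qs nd (pm s) (F' b) x) ^ 2)) hne
  rw [mem_filter] at hF'
  refine ⟨F', hF'.2, ?_⟩
  intro b₁ b₂ hg x0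
  by_cases hb : b₁ = b₂
  · subst hb
    simp
  by_contra hcon
  obtain ⟨hinv', hdis', -⟩ := hF'.2
  obtain ⟨cp, κ, hcσ, hcτ, hκ1, hκ2⟩ := exists_pairing (F' b₁) (F' b₂) (hinv' b₁) (hinv' b₂)
    (fun v hv => hdis' b₁ b₂ v hb hv)
  set O : Finset V := univ.filter fun v => (F' b₁ v = v ↔ ¬ F' b₂ v = v) with hO
  have htO : ∀ (w : V → ℤ) (v : V), v ∉ O → dif w (F' b₁) (F' b₂) v = 0 := by
    intro w v hv
    rw [hO, mem_filter, not_and] at hv
    have hv := hv (mem_univ _)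
    unfold dif
    by_cases h1 : F' b₁ v = v <;> by_cases h2 : F' b₂ v = v <;> simp_all
  have hD : ∀ (w : V → ℤ) x, qs nd w (F' b₁) x - qs nd w (F' b₂) x =
      sm nd (dif w (F' b₁) (F' b₂)) O x := by
    intro w x
    unfold qs sm
    rw [← sum_sub_distrib]
    symm
    apply sum_subset
    · intro v hv
      rw [mem_filter] at hv ⊢
      exact ⟨mem_univ _, hv.2⟩
    · intro v hv hv'
      rw [mem_filter] at hv hv'
      apply htO w
      intro h
      exact hv' ⟨h, hv.2⟩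
  have hty : ∀ v, Ty (dif (pp s) (F' b₁) (F' b₂) v) (dif (pm s) (F' b₁) (F' b₂) v) := by
    intro v
    unfold dif pp pm Ty
    rcases hs v with h | h | h <;> rw [h] <;> split_ifs <;> norm_num at *
  have hE : Env O κ := by
    refine ⟨?_, ?_, ?_⟩
    · exact fun v hv => mem_filter.mpr ⟨mem_univ _, (hκ1 v (mem_filter.mp hv).2).1⟩
    · exact fun v hv => (hκ1 v (mem_filter.mp hv).2).2.1
    · exact fun v hv => (hκ1 v (mem_filter.mp hv).2).2.2.1
  have hsub : ∀ (T : Finset V) (x : N), sm nd (dif s (F' b₁) (F' b₂)) T x =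
      sm nd (dif (pp s) (F' b₁) (F' b₂)) T x - sm nd (dif (pm s) (F' b₁) (F' b₂)) T x := by
    intro T x
    unfold sm
    rw [← sum_sub_distrib]
    apply sum_congr rfl
    intro v _
    unfold dif pp pm
    rcases hs v with h | h | h <;> rw [h] <;> split_ifs <;> norm_num at *
  obtain ⟨T, hTO, hTκ, hTv, hTs⟩ := improve hE nd _ _ hty x0 (by
    rw [← hD, ← hD]
    intro h
    apply hcon
    refine ⟨?_, h.2.1, h.2.2⟩
    rw [qs_split nd s hs, qs_split nd s hs (F' b₂)]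
    have e : qs nd (pp s) (F' b₁) x0 - qs nd (pm s) (F' b₁) x0 -
        (qs nd (pp s) (F' b₂) x0 - qs nd (pm s) (F' b₂) x0) =
        qs nd (pp s) (F' b₁) x0 - qs nd (pp s) (F' b₂) x0 -
        (qs nd (pm s) (F' b₁) x0 - qs nd (pm s) (F' b₂) x0) := by ring
    rw [e]
    exact h.1)
  -- the closed set
  set S : Finset V := univ.filter fun v => ∃ u ∈ T, cp u = cp v with hS
  have hSσ : ∀ v, v ∈ S → F' b₁ v ∈ S := by
    intro v hv
    obtain ⟨-, u, hu, hc⟩ := mem_filter.mp hv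
    exact mem_filter.mpr ⟨mem_univ _, u, hu, by rw [hc, hcσ]⟩
  have hSτ : ∀ v, v ∈ S → F' b₂ v ∈ S := by
    intro v hv
    obtain ⟨-, u, hu, hc⟩ := mem_filter.mp hv
    exact mem_filter.mpr ⟨mem_univ _, u, hu, by rw [hc, hcτ]⟩
  have hSO : ∀ v ∈ O, v ∈ S ↔ v ∈ T := by
    intro v hv
    constructor
    · intro h
      obtain ⟨-, u, hu, hc⟩ := mem_filter.mp h
      rcases hκ2 u v (mem_filter.mp (hTO hu)).2 (mem_filter.mp hv).2 hc with h1 | h1
      · rw [h1]; exact hu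
      · rw [h1]; exact hTκ u hu
    · intro h
      exact mem_filter.mpr ⟨mem_univ _, v, h, rfl⟩
  have hswap := swap_recol gp F F' hF'.2 b₁ b₂ hb hg S hSσ hSτ
  have hle := hmin (sw F' b₁ b₂ S) (mem_filter.mpr ⟨mem_univ _, hswap⟩)
  -- the new sums
  have hsm : ∀ (w : V → ℤ) (x : N), sm nd (dif w (F' b₁) (F' b₂)) T x =
      ∑ v ∈ univ.filter (fun v => nd v = x),
        if v ∈ S then dif w (F' b₁) (F' b₂) v else 0 := by
    intro w x
    unfold sm
    rw [← sum_filter, filter_filter]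
    apply sum_subset_zero_on_sdiff
    · intro v hv
      rw [mem_filter] at hv ⊢
      exact ⟨mem_univ _, hv.2, (hSO v (hTO hv.1)).mpr hv.1⟩
    · intro v hv
      rw [mem_sdiff, mem_filter, mem_filter] at hv
      apply htO w
      intro h
      exact hv.2 (mem_filter.mpr ⟨(hSO v h).mp (mem_filter.mpr hv.1.2.2), hv.1.2.1⟩)
    · intro v _
      rfl
  have hbt : ∀ l L : ℤ, btw l L → l * (l - L) ≤ 0 := by
    intro l L h
    rcases h with ⟨h1, h2⟩ | ⟨h1, h2⟩
    · exact mul_nonpos_of_nonneg_of_nonpos h1 (by linarith)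
    · exact mul_nonpos_of_nonpos_of_nonneg h2 (by linarith)
  have hbt' : ∀ l L : ℤ, btw l L → l ≠ 0 → l ≠ L → l * (l - L) < 0 := by
    intro l L h h1 h2
    have h3 := hbt l L h
    have h4 : l * (l - L) ≠ 0 := mul_ne_zero h1 (sub_ne_zero.2 h2)
    exact lt_of_le_of_ne h3 h4
  have hsq : ∀ (w : V → ℤ) (x : N), ∑ b, (qs nd w (sw F' b₁ b₂ S b) x) ^ 2 =
      ∑ b, (qs nd w (F' b) x) ^ 2 + 2 * (sm nd (dif w (F' b₁) (F' b₂)) T x *
        (sm nd (dif w (F' b₁) (F' b₂)) T x - sm nd (dif w (F' b₁) (F' b₂)) O x)) := by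
    intro w x
    rw [sq_sw nd w F' b₁ b₂ hb S x _ (hsm w x), hD]
    ring
  have hx : ∀ x : N, ∑ b, (qs nd s (sw F' b₁ b₂ S b) x) ^ 2 +
      ∑ b, (qs nd (pp s) (sw F' b₁ b₂ S b) x) ^ 2 + ∑ b, (qs nd (pm s) (sw F' b₁ b₂ S b) x) ^ 2 ≤
      ∑ b, (qs nd s (F' b) x) ^ 2 + ∑ b, (qs nd (pp s) (F' b) x) ^ 2 +
      ∑ b, (qs nd (pm s) (F' b) x) ^ 2 ∧ (x = x0 → ∑ b, (qs nd s (sw F' b₁ b₂ S b) x) ^ 2 +
      ∑ b, (qs nd (pp s) (sw F' b₁ b₂ S b) x) ^ 2 + ∑ b, (qs nd (pm s) (sw F' b₁ b₂ S b) x) ^ 2 <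
      ∑ b, (qs nd s (F' b) x) ^ 2 + ∑ b, (qs nd (pp s) (F' b) x) ^ 2 +
      ∑ b, (qs nd (pm s) (F' b) x) ^ 2) := by
    intro x
    rw [hsq, hsq, hsq]
    obtain ⟨v1, v2, v3⟩ := hTv x
    rw [← hsub, ← hsub] at v3
    have w1 := hbt _ _ v1
    have w2 := hbt _ _ v2
    have w3 := hbt _ _ v3
    constructor
    · linarith
    · intro hx
      subst hx
      unfold Str at hTs
      rw [← hsub, ← hsub] at hTs
      rcases hTs with h | h | h
      · have := hbt' _ _ v1 h.1 h.2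
        linarith
      · have := hbt' _ _ v2 h.1 h.2
        linarith
      · have := hbt' _ _ v3 h.1 h.2
        linarith
  have hlt := sum_lt_sum (s := (univ : Finset N)) (fun x _ => (hx x).1)
    ⟨x0, mem_univ _, (hx x0).2 rfl⟩
  exact absurd hle (not_le.mpr hlt)

end Pool.Agent.Work.MP_db9399_sg_helper39
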