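import Pool.Agent.Work.MP_db9399_sg.Interface
import Pool.Agent.Work.MP_db9399_sg_helper39.EQL
import Pool.Agent.Work.MP_db9399_core_helper75.Four

/-!
# Block RESTN (helper39): Fournier + equitable nodes with loads
-/

set_option autoImplicit false

namespace Pool.Agent.Work.MP_db9399_sg_helper39

open Finset Classical
open Pool.Agent.Work.MP_db9399_all (nb mis)
open Pool.Agent.Work.MP_db9399_sg
open Pool.Agent.Work.MP_db9399_bp_helper22 (Recol qs)
open Pool.Agent.Work.MP_db9399_all.VIZ (Col four)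

universe u

/-- a proper colouring as a family of matchings -/
theorem col_mts {V : Type u} [Fintype V] (E : SimpleGraph V) (q : ℕ) (t : V → V → ℕ)
    (ht : Col (range q) E t) : ∃ F : Fin q → V → V, Mts E F ∧ ∀ v w, E.Adj v w → ∃ b, F b v = w := by
  have hex : ∀ (b : Fin q) (v : V), ∃ w, (E.Adj v w ∧ t v w = b) ∨
      (w = v ∧ ∀ u, E.Adj v u → t v u ≠ b) := by
    intro b v
    by_cases h : ∃ w, E.Adj v w ∧ t v w = b
    · obtain ⟨w, hw⟩ := h
      exact ⟨w, Or.inl hw⟩
    · push Not at h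
      exact ⟨v, Or.inr ⟨rfl, h⟩⟩
  choose F hF using hex
  have hadj : ∀ b v, F b v ≠ v → E.Adj v (F b v) ∧ t v (F b v) = b := by
    intro b v h
    rcases hF b v with h1 | h1
    · exact h1
    · exact absurd h1.1 h
  have huniq : ∀ (b : Fin q) (v w : V), E.Adj v w → t v w = (b : ℕ) → F b v = w := by
    intro b v w h1 h2
    rcases hF b v with h3 | h3
    · exact ht.inj v _ _ h3.1 h1 (h3.2.trans h2.symm)
    · exact absurd h2 (h3.2 w h1)
  refine ⟨F, ⟨?_, fun b v h => (hadj b v h).1, ?_⟩, ?_⟩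
  · intro b v
    by_cases h : F b v = v
    · rw [h, h]
    · obtain ⟨h1, h2⟩ := hadj b v h
      exact huniq b (F b v) v h1.symm (by rw [ht.symm]; exact h2)
  · intro b b' v h h'
    obtain ⟨h1, h2⟩ := hadj b v h
    obtain ⟨h3, h4⟩ := hadj b' v (by rw [← h']; exact h)
    rw [← h', h2] at h4
    exact Fin.ext h4
  · intro v w hvw
    have h1 := mem_range.1 (ht.mem v w hvw)
    exact ⟨⟨t v w, h1⟩, huniq _ v w hvw rfl⟩

/-- sign of a vertex -/
noncomputable def sg {V I : Type u} (nd : V → Option (I × Bool)) (v : V) : ℤ :=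
  match nd v with
  | none => 0
  | some (_, false) => 1
  | some (_, true) => -1

theorem sg_cases {V I : Type u} (nd : V → Option (I × Bool)) (v : V) :
    sg nd v = 0 ∨ sg nd v = 1 ∨ sg nd v = -1 := by
  unfold sg
  split
  · exact Or.inl rfl
  · exact Or.inr (Or.inl rfl)
  · exact Or.inr (Or.inr rfl)

theorem sg_false {V I : Type u} (nd : V → Option (I × Bool)) (v : V) (i : I) :
    ((nd v).map Prod.fst = some i ∧ sg nd v = 1) ↔ nd v = some (i, false) := by
  unfold sg
  rcases h : nd v with _ | ⟨j, _ | _⟩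
  · simp
  · simp
  · simp

theorem sg_true {V I : Type u} (nd : V → Option (I × Bool)) (v : V) (i : I) :
    ((nd v).map Prod.fst = some i ∧ sg nd v = -1) ↔ nd v = some (i, true) := by
  unfold sg
  rcases h : nd v with _ | ⟨j, _ | _⟩
  · simp
  · simp
  · simp

theorem qs_pp {V I : Type u} [Fintype V] (nd : V → Option (I × Bool)) (f : V → V)
    (i : I) : qs (fun v => (nd v).map Prod.fst) (pp (sg nd)) f (some i) =
      (((nsd nd i false).filter fun v => f v ≠ v).card : ℤ) := by
  unfold qs nsd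
  rw [card_filter]
  push_cast
  rw [sum_filter, sum_filter]
  apply sum_congr rfl
  intro v _
  by_cases h : nd v = some (i, false)
  · have h1 := (sg_false nd v i).2 h
    rw [if_pos h1.1, if_pos h]
    unfold pp
    rw [if_pos h1.2]
    by_cases hf : f v = v <;> simp [hf]
  · rw [if_neg h]
    by_cases h1 : (nd v).map Prod.fst = some i
    · rw [if_pos h1]
      have h2 : sg nd v ≠ 1 := fun h2 => h ((sg_false nd v i).1 ⟨h1, h2⟩)
      unfold pp
      rw [if_neg h2, ite_self]
    · rw [if_neg h1]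

theorem qs_pm {V I : Type u} [Fintype V] (nd : V → Option (I × Bool)) (f : V → V)
    (i : I) : qs (fun v => (nd v).map Prod.fst) (pm (sg nd)) f (some i) =
      (((nsd nd i true).filter fun v => f v ≠ v).card : ℤ) := by
  unfold qs nsd
  rw [card_filter]
  push_cast
  rw [sum_filter, sum_filter]
  apply sum_congr rfl
  intro v _
  by_cases h : nd v = some (i, true)
  · have h1 := (sg_true nd v i).2 h
    rw [if_pos h1.1, if_pos h]
    unfold pm
    rw [if_pos h1.2]
    by_cases hf : f v = v <;> simp [hf]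
  · rw [if_neg h]
    by_cases h1 : (nd v).map Prod.fst = some i
    · rw [if_pos h1]
      have h2 : sg nd v ≠ -1 := fun h2 => h ((sg_true nd v i).1 ⟨h1, h2⟩)
      unfold pm
      rw [if_neg h2, ite_self]
    · rw [if_neg h1]

/-- equitable nodes with loads, in the language of the interface -/
theorem eq_nodes {V I : Type u} [Fintype V] [Fintype I] (E : SimpleGraph V)
    (nd : V → Option (I × Bool)) (q : ℕ) (F : Fin q → V → V) (hF : Mts E F)
    (hE : ∀ v w, E.Adj v w → ∃ b, F b v = w) :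
    ∃ N : Fin q → V → V, Mts E N ∧ (∀ v w, E.Adj v w → ∃ b, N b v = w) ∧
      (∀ i b b', |sgn nd N i b - sgn nd N i b'| ≤ 2) ∧
      ∀ i s b b', |(((nsd nd i s).filter fun v => N b v ≠ v).card : ℤ) -
        ((nsd nd i s).filter fun v => N b' v ≠ v).card| ≤ 4 := by
  obtain ⟨F', hR, hb⟩ := equitableL (fun _ : Fin q => ()) F hF.NN
    (by
      intro b b' v hbb h
      by_contra hv
      exact hbb (hF.Nd b b' v hv h)) (fun v => (nd v).map Prod.fst) (sg nd) (sg_cases nd)
  obtain ⟨h1, h2, h3⟩ := hR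
  refine ⟨F', ⟨h1, ?_, ?_⟩, ?_, ?_, ?_⟩
  · intro b v h
    obtain ⟨b', -, hb'⟩ := (h3 () v (F' b v) (Ne.symm h)).1 ⟨b, rfl, rfl⟩
    have h4 := hF.NG b' v (by rw [hb']; exact h)
    rwa [hb'] at h4
  · intro b b' v h h'
    by_contra hbb
    exact h (h2 b b' v hbb h')
  · intro v w hvw
    obtain ⟨b, hb'⟩ := hE v w hvw
    obtain ⟨b', -, hb''⟩ := (h3 () v w hvw.ne).2 ⟨b, rfl, hb'⟩
    exact ⟨b', hb''⟩
  · intro i b b'
    have h4 := (hb b b' rfl (some i)).1
    rw [qs_split _ _ (sg_cases nd), qs_split _ _ (sg_cases nd) (F' b'), qs_pp, qs_pm, qs_pp,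
      qs_pm] at h4
    exact h4
  · intro i s b b'
    obtain ⟨-, h4, h5⟩ := hb b b' rfl (some i)
    rw [qs_pp, qs_pp] at h4
    rw [qs_pm, qs_pm] at h5
    cases s
    · exact h4
    · exact h5

/-- equitable nodes with loads from any proper colouring: windows for the signed numbers, loads at
most the average plus `4` -/
theorem eq_nodes_load {V I : Type u} [Fintype V] [Fintype I] (E : SimpleGraph V)
    (nd : V → Option (I × Bool)) (q : ℕ) (hq : 0 < q)
    (F : Fin q → V → V) (hF : Mts E F) (hE : ∀ v w, E.Adj v w → ∃ b, F b v = w) :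
    ∃ N : Fin q → V → V, Mts E N ∧ (∀ v w, E.Adj v w → ∃ b, N b v = w) ∧
      (∀ i b, |(sgn nd N i b : ℝ) - (∑ b', (sgn nd N i b' : ℝ)) / q| ≤ 2) ∧
      ∀ i s b, (((nsd nd i s).filter fun v => N b v ≠ v).card : ℝ) ≤
        (∑ v ∈ nsd nd i s, ((nb E v).card : ℝ)) / q + 4 := by
  obtain ⟨N, hN, hNE, hs, hl⟩ := eq_nodes E nd q F hF hE
  have hq0 : (0 : ℝ) < q := by exact_mod_cast hq
  refine ⟨N, hN, hNE, ?_, ?_⟩
  · intro i b
    have h1 : (sgn nd N i b : ℝ) - (∑ b', (sgn nd N i b' : ℝ)) / q =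
        (∑ b', ((sgn nd N i b : ℝ) - sgn nd N i b')) / q := by
      rw [sum_sub_distrib, sum_const, card_univ, Fintype.card_fin, nsmul_eq_mul]
      field_simp
    rw [h1, abs_div, abs_of_pos hq0, div_le_iff₀ hq0]
    refine (abs_sum_le_sum_abs _ _).trans ?_
    have h2 : ∀ b' ∈ (univ : Finset (Fin q)), |(sgn nd N i b : ℝ) - sgn nd N i b'| ≤ 2 := by
      intro b' _
      have h3 := hs i b b'
      exact_mod_cast h3
    refine (sum_le_sum h2).trans ?_
    rw [sum_const, card_univ, Fintype.card_fin, nsmul_eq_mul]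
    linarith
  · intro i s b
    set L : Fin q → ℝ := fun b' => (((nsd nd i s).filter fun v => N b' v ≠ v).card : ℝ) with hL
    have h1 : ∀ b', L b ≤ L b' + 4 := by
      intro b'
      have h2 := hl i s b b'
      rw [abs_le] at h2
      have h3 : (((nsd nd i s).filter fun v => N b v ≠ v).card : ℤ) ≤
        ((nsd nd i s).filter fun v => N b' v ≠ v).card + 4 := by linarith [h2.2]
      rw [hL]
      simp only
      exact_mod_cast h3
    have h2 : ∑ b', L b' ≤ ∑ v ∈ nsd nd i s, ((nb E v).card : ℝ) := by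
      have h3 : ∑ b', L b' = ∑ v ∈ nsd nd i s, ((univ.filter fun b' => N b' v ≠ v).card : ℝ) := by
        rw [hL]
        simp only [card_filter]
        push_cast
        rw [sum_comm]
      rw [h3]
      apply sum_le_sum
      intro v _
      have h5 : (univ.filter fun b' => N b' v ≠ v).card ≤ (nb E v).card := by
        apply card_le_card_of_injOn (fun b' => N b' v)
        · intro b' hb'
          have hb'' : N b' v ≠ v := (mem_filter.1 (mem_coe.1 hb')).2
          exact mem_coe.2 (mem_filter.2 ⟨mem_univ _, hN.NG b' v hb''⟩)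
        · intro b' hb' b'' _ h
          exact hN.Nd b' b'' v (mem_filter.1 (mem_coe.1 hb')).2 h
      exact_mod_cast h5
    have h3 : (q : ℝ) * L b ≤ ∑ b', (L b' + 4) := by
      have h4 : (q : ℝ) * L b = ∑ _b' : Fin q, L b := by
        rw [sum_const, card_univ, Fintype.card_fin, nsmul_eq_mul]
      rw [h4]
      exact sum_le_sum fun b' _ => h1 b'
    rw [sum_add_distrib, sum_const, card_univ, Fintype.card_fin, nsmul_eq_mul] at h3
    have h4 : L b - 4 ≤ (∑ v ∈ nsd nd i s, ((nb E v).card : ℝ)) / q := by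
      rw [le_div_iff₀ hq0]
      linarith
    linarith

/-- RESTN without the side conditions -/
theorem restn {V I : Type u} [Fintype V] [Fintype I] (E : SimpleGraph V)
    (nd : V → Option (I × Bool)) (q : ℕ) (hq : 0 < q) (hdeg : ∀ v, (nb E v).card ≤ q)
    (hind : ∀ v w, E.Adj v w → (nb E v).card < q ∨ (nb E w).card < q) :
    ∃ N : Fin q → V → V, Mts E N ∧ (∀ v w, E.Adj v w → ∃ b, N b v = w) ∧
      (∀ i b, |(sgn nd N i b : ℝ) - (∑ b', (sgn nd N i b' : ℝ)) / q| ≤ 2) ∧
      ∀ i s b, (((nsd nd i s).filter fun v => N b v ≠ v).card : ℝ) ≤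
        (∑ v ∈ nsd nd i s, ((nb E v).card : ℝ)) / q + 4 := by
  obtain ⟨t, ht⟩ := four E q (univ.filter fun v => q ≤ (nb E v).card)
    (by
      intro v hv
      rw [mem_filter] at hv
      have : ¬ q ≤ (nb E v).card := fun h => hv ⟨mem_univ _, h⟩
      omega)
    (fun v _ => hdeg v)
    (by
      intro v hv w hw h
      rw [mem_filter] at hv hw
      rcases hind v w h with h1 | h1
      · exact absurd hv.2 (not_le.2 h1)
      · exact absurd hw.2 (not_le.2 h1))
  obtain ⟨F, hF, hE⟩ := col_mts E q t ht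
  exact eq_nodes_load E nd q hq F hF hE

/-- RESTN -/
theorem stmt_RESTN : Stmt_RESTN.{u} := by
  intro C _
  refine ⟨1, ?_⟩
  intro V I _ _ E nd d q hd hq1 _ hdeg hind _
  have hq0 : 0 < q := by
    have h1 : (0 : ℝ) < d := by
      have : 0 < d := hd
      exact_mod_cast this
    have h2 := lt_of_lt_of_le (Real.rpow_pos_of_pos h1 (98 / 100 : ℝ)) hq1
    exact_mod_cast h2
  exact restn E nd q hq0 hdeg hind

end Pool.Agent.Work.MP_db9399_sg_helper39
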